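import Mathlib

namespace Pool.Agent.H.MP_aa1485_co

open Classical in
noncomputable def row {V : Type} [Fintype V] (G : SimpleGraph V) (x : V → ℚ) (v : V) : ℚ :=
  ∑ w, if G.Adj v w then x w else 0

theorem leaf {V : Type} [Fintype V] (G : SimpleGraph V) (h : G.IsAcyclic) {a b : V}
    (hab : G.Adj a b) : ∃ l u, G.Adj l u ∧ ∀ w, G.Adj l w → w = u := by
  have : Nonempty V := ⟨a⟩
  obtain ⟨u, v, p, hp, hmax⟩ := SimpleGraph.Walk.exists_isPath_forall_isPath_length_le_length G
  have hnil : ¬ p.Nil := by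
    intro hn
    have := hmax a b (SimpleGraph.Path.singleton hab).1 (SimpleGraph.Path.singleton hab).2
    rw [SimpleGraph.Walk.length_eq_zero_iff.2 hn] at this
    simp [SimpleGraph.Path.singleton] at this
  refine ⟨u, _, p.adj_snd hnil, fun w hadj => ?_⟩
  apply h.eq_snd_of_adj_start hp hadj
  by_contra hw
  have := hmax _ _ (p.cons hadj.symm) (hp.cons hw)
  simp at this

theorem supp {V : Type} [Fintype V] (F : Set V) (G : SimpleGraph V) : G.IsAcyclic →
    ∀ Z : Set V, (∀ v ∈ Z, ¬ ∃! w, G.Adj v w ∧ w ∈ F) →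
    ∃ x : V → ℚ, (∀ v, x v ≠ 0 ↔ v ∈ F) ∧ (∀ v ∈ Z, row G x v = 0) ∧
      ∀ v ∉ Z, (∃ w ∈ F, G.Adj v w) → row G x v ≠ 0 := by
  classical
  induction G using WellFoundedLT.induction with
  | _ G ih =>
  intro hG Z hZ
  by_cases he : ∃ a b, G.Adj a b
  swap
  · push Not at he
    refine ⟨fun v => if v ∈ F then 1 else 0, fun v => by simp, fun v _ => by simp [row, he], ?_⟩
    rintro v - ⟨w, -, h⟩
    exact absurd h (he _ _)
  obtain ⟨a, b, hab⟩ := he
  obtain ⟨l, u, hlu, hl⟩ := leaf G hG hab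
  have hul : u ≠ l := hlu.ne'
  have hvl : ∀ v, G.Adj v l ↔ v = u := fun v => ⟨fun h => hl v h.symm, fun h => h ▸ hlu.symm⟩
  let G' : SimpleGraph V :=
    { Adj := fun a b => G.Adj a b ∧ a ≠ l ∧ b ≠ l
      symm := ⟨fun a b h => ⟨h.1.symm, h.2.2, h.2.1⟩⟩
      loopless := ⟨fun a h => h.1.ne rfl⟩ }
  have hadj : ∀ a b, G'.Adj a b ↔ G.Adj a b ∧ a ≠ l ∧ b ≠ l := fun _ _ => Iff.rfl
  have hle : G' ≤ G := fun a b h => h.1
  have hlt : G' < G := lt_of_le_of_ne hle fun h => by
    have : G'.Adj l u := h ▸ hlu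
    exact this.2.1 rfl
  have r1 : ∀ (x : V → ℚ) t v, v ≠ l →
      row G (Function.update x l t) v = row G' x v + if v = u then t else 0 := by
    intro x t v hv
    unfold row
    rw [← Finset.add_sum_erase _ _ (Finset.mem_univ l),
      ← Finset.add_sum_erase _ _ (Finset.mem_univ l), add_comm]
    simp only [hadj, hvl, Function.update_self, ne_eq, not_true, and_false, if_false, zero_add]
    congr 1
    refine Finset.sum_congr rfl fun w hw => ?_
    have := Finset.ne_of_mem_erase hw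
    simp [hv, this]
  have r2 : ∀ (x : V → ℚ) t, row G (Function.update x l t) l = x u := by
    intro x t
    unfold row
    rw [Finset.sum_eq_single u]
    · simp [hlu, hul]
    · intro w _ hw
      rw [if_neg fun h => hw (hl w h)]
    · simp
  have hlZ : l ∈ Z → u ∉ F := fun h hu => hZ l h ⟨u, ⟨hlu, hu⟩, fun w hw => hl w hw.1⟩
  let Z' : Set V := {v | v ∈ Z ∧ (l ∈ F → v ≠ u)}
  have same : ∀ v, v ≠ l → (l ∈ F → v ≠ u) → ∀ w ∈ F, (G'.Adj v w ↔ G.Adj v w) := by
    intro v hv h w hw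
    refine ⟨fun h => h.1, fun h' => ⟨h', hv, ?_⟩⟩
    rintro rfl
    exact h hw ((hvl v).1 h')
  obtain ⟨x, hx, h0, h1⟩ := ih G' hlt (hG.anti hle) Z' (by
    rintro v ⟨hv, hv'⟩ ⟨w, ⟨hw1, hw2⟩, hu⟩
    refine hZ v hv ⟨w, ⟨hw1.1, hw2⟩, fun w' hw' => hu w' ⟨?_, hw'.2⟩⟩
    exact (same v hw1.2.1 hv' w' hw'.2).2 hw'.1)
  obtain ⟨t, ht1, ht2, ht3⟩ : ∃ t : ℚ, (t ≠ 0 ↔ l ∈ F) ∧ (u ∈ Z → row G' x u + t = 0) ∧
      (u ∉ Z → (∃ w ∈ F, G.Adj u w) → row G' x u + t ≠ 0) := by
    by_cases hF : l ∈ F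
    · by_cases hu : u ∈ Z
      · refine ⟨-row G' x u, ?_, fun _ => by ring, fun h => absurd hu h⟩
        simp only [hF, iff_true, ne_eq, neg_eq_zero]
        apply h1 u (fun h => h.2 hF rfl)
        by_contra hn
        refine hZ u hu ⟨l, ⟨hlu.symm, hF⟩, fun w hw => ?_⟩
        by_contra hwl
        exact hn ⟨w, hw.2, hw.1, hul, hwl⟩
      · by_cases h : row G' x u = -1
        · exact ⟨2, by simp [hF], fun h => absurd h hu, fun _ _ => by rw [h]; norm_num⟩
        · exact ⟨1, by simp [hF], fun h => absurd h hu, fun _ _ h' => h (by linarith)⟩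
    · refine ⟨0, by simp [hF], fun hu => ?_, fun hu ⟨w, hw, hw'⟩ => ?_⟩
      · rw [add_zero]
        exact h0 u ⟨hu, fun h => absurd h hF⟩
      · rw [add_zero]
        exact h1 u (fun h => hu h.1) ⟨w, hw, (same u hul (fun h => absurd h hF) w hw).2 hw'⟩
  refine ⟨Function.update x l t, fun v => ?_, fun v hv => ?_, fun v hv hw => ?_⟩
  · by_cases h : v = l
    · subst h; simpa using ht1
    · rw [Function.update_of_ne h, hx]
  · by_cases h : v = l
    · subst h
      rw [r2]
      by_contra h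
      exact hlZ hv ((hx u).1 h)
    · rw [r1 x t v h]
      split_ifs with h'
      · subst h'; exact ht2 hv
      · rw [add_zero]; exact h0 v ⟨hv, fun _ => h'⟩
  · by_cases h : v = l
    · subst h
      rw [r2, hx]
      obtain ⟨w, hw, hw'⟩ := hw
      exact hl w hw' ▸ hw
    · rw [r1 x t v h]
      split_ifs with h'
      · subst h'; exact ht3 hv hw
      · rw [add_zero]
        obtain ⟨w, hw, hw'⟩ := hw
        exact h1 v (fun h => hv h.1) ⟨w, hw, (same v h (fun _ => h') w hw).2 hw'⟩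

/-- null vectors -/
noncomputable def K {V : Type} [Fintype V] (G : SimpleGraph V) : Submodule ℚ (V → ℚ) where
  carrier := {x | ∀ v, row G x v = 0}
  add_mem' := by
    classical
    intro x y hx hy v
    have : row G (x + y) v = row G x v + row G y v := by
      unfold row
      rw [← Finset.sum_add_distrib]
      refine Finset.sum_congr rfl fun w _ => ?_
      split_ifs <;> simp
    rw [this, hx v, hy v, add_zero]
  zero_mem' := fun v => by simp [row]
  smul_mem' := by
    classical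
    intro c x hx v
    have : row G (c • x) v = c * row G x v := by
      unfold row
      rw [Finset.mul_sum]
      refine Finset.sum_congr rfl fun w _ => ?_
      split_ifs <;> simp
    rw [this, hx v, mul_zero]

theorem fort_of_mem {V : Type} [Fintype V] (G : SimpleGraph V) (x : V → ℚ) (hx : x ∈ K G) (v : V) :
    ¬ ∃! w, G.Adj v w ∧ x w ≠ 0 := by
  classical
  rintro ⟨w, ⟨h1, h2⟩, hu⟩
  have := hx v
  unfold row at this
  rw [Finset.sum_eq_single w] at this
  · exact h2 (by simpa [h1] using this)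
  · intro w' _ hw'
    split_ifs with h
    · by_contra h'
      exact hw' (hu w' ⟨h, h'⟩)
    · rfl
  · simp

theorem mem_of_fort {V : Type} [Fintype V] (G : SimpleGraph V) (hG : G.IsAcyclic) (F : Set V)
    (hF : ∀ v, ¬ ∃! w, G.Adj v w ∧ w ∈ F) : ∃ x ∈ K G, ∀ v, x v ≠ 0 ↔ v ∈ F := by
  obtain ⟨x, h1, h2, -⟩ := supp F G hG Set.univ fun v _ => hF v
  exact ⟨x, fun v => h2 v trivial, h1⟩

theorem le_of_inj {V : Type} [Fintype V] (W : Submodule ℚ (V → ℚ)) (S : Set V)
    (h : ∀ x ∈ W, (∀ s ∈ S, x s = 0) → x = 0) : Module.finrank ℚ W ≤ S.ncard := by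
  classical
  let ρ : W →ₗ[ℚ] (S → ℚ) := (LinearMap.funLeft ℚ ℚ Subtype.val).comp W.subtype
  have hi : Function.Injective ρ := by
    rw [injective_iff_map_eq_zero]
    intro x hx
    exact Subtype.ext (h x x.2 fun s hs => congrFun hx ⟨s, hs⟩)
  have := LinearMap.finrank_le_finrank_of_injective hi
  rwa [Module.finrank_fintype_fun_eq_card, ← Nat.card_eq_fintype_card, Nat.card_coe_set_eq] at this

theorem le_of_surj {V : Type} [Fintype V] (W : Submodule ℚ (V → ℚ)) (S : Set V)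
    (h : ∀ u ∈ S, ∃ x ∈ W, x u ≠ 0 ∧ ∀ s ∈ S, s ≠ u → x s = 0) : S.ncard ≤ Module.finrank ℚ W := by
  classical
  let ρ : W →ₗ[ℚ] (S → ℚ) := (LinearMap.funLeft ℚ ℚ Subtype.val).comp W.subtype
  have h' : ∀ u : S, ∃ x : W, x.1 u ≠ 0 ∧ ∀ s : S, s ≠ u → x.1 s = 0 := by
    intro u
    obtain ⟨x, hx, h1, h2⟩ := h u u.2
    exact ⟨⟨x, hx⟩, h1, fun s hs => h2 s s.2 fun e => hs (Subtype.ext e)⟩
  choose y hy1 hy2 using h'
  have hs : Function.Surjective ρ := by
    intro t
    refine ⟨∑ u, (t u / (y u).1 u) • y u, ?_⟩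
    ext s
    rw [map_sum, Finset.sum_apply, Finset.sum_eq_single s]
    · have := hy1 s
      simp only [map_smul, Pi.smul_apply, smul_eq_mul]
      change t s / (y s).1 s * (y s).1 s = t s
      field_simp
    · intro u _ hu
      simp only [map_smul, Pi.smul_apply, smul_eq_mul]
      change t u / (y u).1 u * (y u).1 s = 0
      rw [hy2 u s (Ne.symm hu), mul_zero]
    · simp
  have := LinearMap.finrank_le_finrank_of_surjective hs
  rwa [Module.finrank_fintype_fun_eq_card, ← Nat.card_eq_fintype_card, Nat.card_coe_set_eq] at this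

end Pool.Agent.H.MP_aa1485_co
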